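import Mathlib
import Pool.Agent.Helper460_PR.Fin

/-!
# Profinite rigidity of `SL (n, ℤ)` among the quotients of `SAut (F_m)`

Let `SAut (F_m)` be the subgroup of `Aut (F_m)` generated by the transvections, `m ≥ 5`, and let `Λ`
be a residually finite quotient of `SAut (F_m)` with the same finite quotients as `SL (n, ℤ)`,
where `3 ≤ n ≤ m`. Then `m = n` and `Λ` is isomorphic to `SL (n, ℤ)`.

Steps of the proof. Let `p` be an odd prime. By assumption `Λ` maps onto the image of `SL (n, ℤ)` in
`SL (n, F_p)`. (1) Let `V` be a representation of `SAut (F_m)` over a field `K` with `2 ≠ 0` in `K`,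
of dimension at most `m`. The products `ε_i ε_j` of two sign changes generate an elementary abelian
`2`-group. If it acts trivially, then the transvections act as involutions, and if they are not
trivial there are at least `2 ^ (m - 2) > m` different joint eigenvalues of `ρ_{o j}`, `j ≠ o`. If
it acts nontrivially, then counting joint eigenvalues shows that `V` has dimension `m` and is a sum
of lines `K w_k`, such that `ε_i ε_j` is `-1` on `w_i` and `w_j` and `1` on the other lines.
(2) The transvection `ρ_{ij}` commutes with `ε_k ε_l` for `k, l` different from `i, j`, so it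
preserves `K w_i + K w_j` and the other lines; in particular `ε_i ε_j` commutes with it, and
`λ_{ij} = ε_i ε_j ρ_{ij} ε_i ε_j` has the same image. From the relations between
`ρ_{ij}`, `ρ_{jk}`, `ρ_{ik}` it follows that after a change of the basis all `ρ_{ij}` act as in
`SL (m, ℤ)`, or all act by the inverse transposed matrices. (3) So `n = m` and the kernel of
`SAut (F_m) → Λ` is contained in the kernel of `SAut (F_m) → SL (m, ℤ / p)` for all odd primes `p`;
therefore `Λ` maps onto `SL (n, ℤ)`. (4) A surjection from a finitely generated residually finite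
group onto a group with the same finite quotients is injective.
-/

set_option autoImplicit false

namespace Pool.Agent.Results.MP_a2a22c_al.QuotientsOfSAut

open Pool.Agent.Helper460_PR

/-- `τ` is a Nielsen transvection: for some `i ≠ j` it maps `x_i` to `x_i x_j` or to `x_j x_i` and
fixes the other generators. -/
def IsTransvection {m : ℕ} (τ : MulAut (FreeGroup (Fin m))) : Prop :=
  ∃ i j : Fin m, i ≠ j ∧
    (τ (FreeGroup.of i) = FreeGroup.of i * FreeGroup.of j ∨
      τ (FreeGroup.of i) = FreeGroup.of j * FreeGroup.of i) ∧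
    ∀ k, k ≠ i → τ (FreeGroup.of k) = FreeGroup.of k

/-- The group `SAut (F_m)` generated by the transvections; it is the preimage of `SL (m, ℤ)` in
`Aut (F_m)`. -/
def SAut (m : ℕ) : Subgroup (MulAut (FreeGroup (Fin m))) :=
  Subgroup.closure {τ | IsTransvection τ}

lemma SAut_eq (m : ℕ) : SAut m = SA m := by
  unfold SAut SA
  congr 1
  ext τ
  constructor
  · rintro ⟨i, j, hij, h | h, h'⟩
    · refine ⟨i, j, hij, Or.inl (Helper460_OutF.aut_ext fun k => ?_)⟩
      by_cases hk : k = i
      · subst hk; rw [h, ro_self hij]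
      · rw [h' k hk, ro_ne j hk]
    · refine ⟨i, j, hij, Or.inr (Helper460_OutF.aut_ext fun k => ?_)⟩
      by_cases hk : k = i
      · subst hk; rw [h, la_self hij]
      · rw [h' k hk, la_ne j hk]
  · rintro ⟨i, j, hij, rfl | rfl⟩
    · exact ⟨i, j, hij, Or.inl (ro_self hij), fun k hk => ro_ne j hk⟩
    · exact ⟨i, j, hij, Or.inr (la_self hij), fun k hk => la_ne j hk⟩

/-- Let `3 ≤ n ≤ m` and `5 ≤ m`, and let `Λ` be a residually finite group with the same finite
quotients as `SL (n, ℤ)`. If `Λ` is a quotient of `SAut (F_m)` then `m = n` and `Λ` is isomorphic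
to `SL (n, ℤ)`. -/
theorem result : ∀ n m : ℕ, 3 ≤ n → 5 ≤ m → n ≤ m → ∀ (Λ : Type) [Group Λ],
    (∀ g : Λ, g ≠ 1 → ∃ H : Subgroup Λ, H.index ≠ 0 ∧ g ∉ H) →
    (∀ (Q : Type) [Group Q] [Finite Q],
      (∃ f : Λ →* Q, Function.Surjective f) ↔
      (∃ f : Matrix.SpecialLinearGroup (Fin n) ℤ →* Q, Function.Surjective f)) →
    (∃ f : SAut m →* Λ, Function.Surjective f) →
    m = n ∧ Nonempty (Λ ≃* Matrix.SpecialLinearGroup (Fin n) ℤ) := by
  intro n m hn hm hnm Λ _ hRF hq hf
  rw [SAut_eq] at hf
  obtain ⟨f, hf⟩ := hf
  exact prof hn hm hnm Λ hRF hq f hf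

end Pool.Agent.Results.MP_a2a22c_al.QuotientsOfSAut
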